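import Mathlib

/-!
# Dissociated sequences in a large subset of an abelian group
-/

set_option autoImplicit false

namespace Pool.Agent.Lib.MP_04f010_co

open Finset

/-- No nontrivial combination with coefficients -1, 0, 1 vanishes. -/
def Dissoc {E : Type*} [AddCommGroup E] {k : ℕ} (s : Fin k → E) : Prop :=
  ∀ ε : Fin k → SignType, (∑ i, ((ε i : ℤ)) • s i) = 0 → ε = 0

theorem exists_dissoc {E : Type*} [AddCommGroup E] [DecidableEq E] (k : ℕ) :
    ∀ S : Finset E, (∀ j < k, 3 ^ j < S.card) →
      ∃ s : Fin k → E, (∀ i, s i ∈ S) ∧ Dissoc s := by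
  induction k with
  | zero =>
    intro S _
    exact ⟨Fin.elim0, fun i => i.elim0, fun ε _ => Subsingleton.elim _ _⟩
  | succ k ih =>
    intro S hS
    obtain ⟨s, hs, hd⟩ := ih S (fun j hj => hS j (by omega))
    set D : Finset E := Finset.univ.image
      (fun ε : Fin k → SignType => ∑ i, ((ε i : ℤ)) • s i) with hD
    have hDc : D.card ≤ 3 ^ k := by
      calc D.card ≤ (Finset.univ : Finset (Fin k → SignType)).card := Finset.card_image_le
        _ = 3 ^ k := by
          rw [Finset.card_univ, Fintype.card_fun, Fintype.card_fin]
          rfl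
    have hlt : D.card < S.card := lt_of_le_of_lt hDc (hS k (by omega))
    obtain ⟨x, hxS, hxD⟩ := Finset.exists_mem_notMem_of_card_lt_card hlt
    refine ⟨Fin.snoc s x, ?_, ?_⟩
    · intro i
      refine Fin.lastCases ?_ (fun i => ?_) i
      · rw [Fin.snoc_last]; exact hxS
      · rw [Fin.snoc_castSucc]; exact hs i
    · intro ε hε
      rw [Fin.sum_univ_castSucc] at hε
      simp only [Fin.snoc_castSucc, Fin.snoc_last] at hε
      have hcases : ε (Fin.last k) = 0 := by
        by_contra hne
        apply hxD
        rw [hD, Finset.mem_image]
        rcases hv : ε (Fin.last k) with _ | _ | _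
        · exact absurd hv hne
        · -- coefficient -1
          refine ⟨fun i => ε i.castSucc, Finset.mem_univ _, ?_⟩
          rw [hv] at hε
          have h1 : ((SignType.neg : SignType) : ℤ) = -1 := rfl
          rw [h1, neg_one_smul] at hε
          exact add_neg_eq_zero.mp hε
        · refine ⟨fun i => - ε i.castSucc, Finset.mem_univ _, ?_⟩
          rw [hv] at hε
          have h1 : ((SignType.pos : SignType) : ℤ) = 1 := rfl
          rw [h1, one_smul] at hε
          have h2 : ∀ i : Fin k, (((- ε i.castSucc : SignType)) : ℤ) • s i =
              - (((ε i.castSucc : SignType) : ℤ) • s i) := by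
            intro i
            have : (((- ε i.castSucc : SignType)) : ℤ) = - ((ε i.castSucc : SignType) : ℤ) := by
              cases ε i.castSucc <;> rfl
            rw [this, neg_smul]
          simp_rw [h2]
          rw [Finset.sum_neg_distrib]
          exact (eq_neg_of_add_eq_zero_right hε).symm
      rw [hcases] at hε
      have h0 : ((0 : SignType) : ℤ) = 0 := rfl
      rw [h0, zero_smul, add_zero] at hε
      have h3 := hd (fun i => ε i.castSucc) hε
      funext i
      refine Fin.lastCases ?_ (fun i => ?_) i
      · exact hcases
      · exact congrFun h3 i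

end Pool.Agent.Lib.MP_04f010_co
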