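import Mathlib

/-!
# Two edge-disjoint Hamilton cycles of the middle levels graph of the 7-cube, as lists

A subset of {0,...,6} is coded by the natural number with these binary digits.
-/

set_option autoImplicit false

namespace Pool.Agent.Lib.MP_04f010_co

/-- First cycle. -/
def c1 : List ℕ :=
  [82, 83, 81, 85, 69, 71, 7, 23, 22, 30, 14, 46, 38, 39, 37, 101, 97, 113, 112, 114, 98,
   106, 42, 43, 35, 99, 67, 75, 73, 77, 76, 78, 74, 90, 26, 58, 50, 54, 52, 116, 84, 92, 28,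
   60, 56, 57, 41, 105, 104, 120, 88, 89, 25, 29, 21, 53, 49, 51, 19, 27, 11, 15, 13, 45, 44,
   108, 100, 102, 70, 86]

/-- Second cycle. -/
def c2 : List ℕ :=
  [7, 15, 14, 78, 70, 71, 67, 83, 19, 23, 21, 85, 84, 86, 22, 54, 38, 102, 98, 99, 97, 105,
   73, 89, 81, 113, 49, 57, 25, 27, 26, 30, 28, 29, 13, 77, 69, 101, 100, 116, 112, 120, 56,
   58, 42, 46, 44, 60, 52, 53, 37, 45, 41, 43, 11, 75, 74, 106, 104, 108, 76, 92, 88, 90, 82,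
   114, 50, 51, 35, 39]

/-- Places in the first cycle. -/
def q1 : List ℕ :=
  [0, 0, 0, 0, 0, 0, 0, 6, 0, 0, 0, 60, 0, 62, 10, 61, 0, 0, 0, 58, 0, 54, 8, 7, 0, 52, 34,
   59, 42, 53, 9, 0, 0, 0, 0, 24, 0, 14, 12, 13, 0, 46, 22, 23, 64, 63, 11, 0, 0, 56, 36, 57,
   38, 55, 37, 0, 44, 45, 35, 0, 43, 0, 0, 0, 0, 0, 0, 26, 0, 4, 68, 5, 0, 28, 32, 27, 30,
   29, 31, 0, 0, 2, 0, 1, 40, 3, 69, 0, 50, 51, 33, 0, 41, 0, 0, 0, 0, 16, 20, 25, 66, 15,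
   67, 0, 48, 47, 21, 0, 65, 0, 0, 0, 18, 17, 19, 0, 39, 0, 0, 0, 49, 0, 0, 0, 0, 0, 0, 0]

/-- Places in the second cycle. -/
def q2 : List ℕ :=
  [0, 0, 0, 0, 0, 0, 0, 0, 0, 0, 0, 54, 0, 34, 2, 1, 0, 0, 0, 8, 0, 10, 14, 9, 0, 28, 30, 29,
   32, 33, 31, 0, 0, 0, 0, 68, 0, 50, 16, 69, 0, 52, 44, 53, 46, 51, 45, 0, 0, 26, 66, 67,
   48, 49, 15, 0, 42, 27, 43, 0, 47, 0, 0, 0, 0, 0, 0, 6, 0, 36, 4, 5, 0, 22, 56, 55, 60, 35,
   3, 0, 0, 24, 64, 7, 12, 11, 13, 0, 62, 23, 63, 0, 61, 0, 0, 0, 0, 20, 18, 19, 38, 37, 17,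
   0, 58, 21, 57, 0, 59, 0, 0, 0, 40, 25, 65, 0, 39, 0, 0, 0, 41, 0, 0, 0, 0, 0, 0, 0]

/-- The number of elements of the set with code m. -/
def wt (m : ℕ) : ℕ := (Finset.univ.filter (fun i : Fin 7 => m.testBit i.val = true)).card

/-- The set with code b is the set with code a together with one new element. -/
def step (a b : ℕ) : Prop :=
  ∃ i : Fin 7, a.testBit i.val = false ∧
    ∀ j : Fin 7, b.testBit j.val = (a.testBit j.val || decide (j = i))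

instance (a b : ℕ) : Decidable (step a b) := by unfold step; infer_instance

/-- The n-th code of the first cycle. -/
def a1 (n : ℕ) : ℕ := c1.getD n 0
/-- The n-th code of the second cycle. -/
def a2 (n : ℕ) : ℕ := c2.getD n 0
/-- The place of a code in the first cycle. -/
def p1 (n : ℕ) : ℕ := q1.getD n 0
/-- The place of a code in the second cycle. -/
def p2 (n : ℕ) : ℕ := q2.getD n 0

theorem lt1 : ∀ n < 70, a1 n < 128 := by decide +kernel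
theorem lt2 : ∀ n < 70, a2 n < 128 := by decide +kernel
theorem pa1 : ∀ n < 70, p1 (a1 n) = n := by decide +kernel
theorem pa2 : ∀ n < 70, p2 (a2 n) = n := by decide +kernel
theorem r12 : ∀ n < 70, p2 (a1 n) < 70 ∧ a2 (p2 (a1 n)) = a1 n := by decide +kernel
theorem r21 : ∀ n < 70, p1 (a2 n) < 70 ∧ a1 (p1 (a2 n)) = a2 n := by decide +kernel
theorem w1 : ∀ n < 70, wt (a1 n) = 3 ∨ wt (a1 n) = 4 := by decide +kernel
theorem w2 : ∀ n < 70, wt (a2 n) = 3 ∨ wt (a2 n) = 4 := by decide +kernel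
theorem s1 : ∀ n < 70, (wt (a1 n) = 3 ∧ wt (a1 ((n + 1) % 70)) = 4 ∧
    step (a1 n) (a1 ((n + 1) % 70))) ∨ (wt (a1 n) = 4 ∧ wt (a1 ((n + 1) % 70)) = 3 ∧
    step (a1 ((n + 1) % 70)) (a1 n)) := by decide +kernel
theorem s2 : ∀ n < 70, (wt (a2 n) = 3 ∧ wt (a2 ((n + 1) % 70)) = 4 ∧
    step (a2 n) (a2 ((n + 1) % 70))) ∨ (wt (a2 n) = 4 ∧ wt (a2 ((n + 1) % 70)) = 3 ∧
    step (a2 ((n + 1) % 70)) (a2 n)) := by decide +kernel
theorem d1 : ∀ n < 70, a2 ((p2 (a1 n) + 1) % 70) ≠ a1 ((n + 1) % 70) := by decide +kernel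
theorem d2 : ∀ n < 70, a2 ((p2 (a1 ((n + 1) % 70)) + 1) % 70) ≠ a1 n := by decide +kernel

end Pool.Agent.Lib.MP_04f010_co
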